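import Pool.Agent.W709.VC.Final
import Pool.Agent.W707.FE.B

/-! FE project: only a neighbourhood of the saddle point matters. -/

set_option autoImplicit false
set_option maxHeartbeats 4000000

namespace Pool.Agent.W505.FE

open Filter Finset EvenVol Pool.Agent.H112R4.VL Pool.Agent.W709.VC Pool.Agent.W707.FE
open scoped Real Topology

/-- off-critical estimate on the vertical segment -/
lemma offA {m α₀ b₀ η c h : ℝ} (hm : 2 ≤ m) (hC : Crit m α₀ b₀ η)
    (hq : ∀ α b : ℝ, 0 ≤ α → 0 ≤ b → b ≤ π / 2 → α + b ≤ π →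
      pot m α b η ≤ pot m α₀ b₀ η - c * ((α - α₀) ^ 2 + (b - b₀) ^ 2)) (hc : 0 < c)
    (hh : 0 < h) (hhΛ : 2 * π * h ≤ GapVol.lob (π / 6)) {δ : ℝ} (hd1 : δ ≤ c * (π / m - b₀) ^ 2)
    (hd2 : δ ≤ c * ((π - α₀ - b₀) ^ 2 / 2)) (hd3 : δ ≤ GapVol.lob (π / 6))
    {α y : ℝ} (hα : 0 ≤ α) (hα' : α ≤ π) (hy : h ≤ y) (hy' : y ≤ η) :
    pot m α (min (π / m) (π - α)) y ≤ pot m α₀ b₀ η - δ := by
  have hp := Real.pi_pos
  have hm0 : 0 < m := by linarith
  have h2 : π / m ≤ π / 2 := div_le_div_of_nonneg_left hp.le (by norm_num) hm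
  have hpm : 0 < π / m := by positivity
  rcases le_total (π / m) (π - α) with h0 | h0
  · rw [min_eq_left h0]
    have h5 := Pool.Agent.W305.VC.vup m α y η hm0 (by linarith) hy' hα
    have h6 := hq α (π / m) hα hpm.le h2 (by linarith)
    have h7 : 0 ≤ c * (α - α₀) ^ 2 := by positivity
    linarith
  · rw [min_eq_right h0]
    have h5 := Pool.Agent.W973.VcVc.vconv m α h y η hh hy hy' (by linarith) hα'
    refine le_trans h5 (max_le ?_ ?_)
    · have h6 := Pool.Agent.W973.VcVc.vend m α h hm0.le (by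
        rw [le_div_iff₀ hm0] at h0
        linarith) hh (by linarith) hα'
      have h7 := vol_ge Pool.Agent.W402.VC.max Pool.Agent.W305.VC.ten hm hC
      linarith
    · have h6 := hq α (π - α) hα (by linarith) (by linarith) (by linarith)
      have h7 : c * ((π - α₀ - b₀) ^ 2 / 2) ≤ c * ((α - α₀) ^ 2 + (π - α - b₀) ^ 2) := by
        apply mul_le_mul_of_nonneg_left _ hc.le
        nlinarith [sq_nonneg ((α - α₀) - (π - α - b₀))]
      linarith

/-- the path integral is the integral over a short segment plus a small rest -/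
lemma path_short {f : ℂ → ℂ} {h η b b₀ ρ B1 B2 B3 B4 B5 : ℝ} (hh : 0 ≤ h) (hη : h ≤ η)
    (hb' : b ≤ π) (hρ : 0 ≤ ρ) (hbρ : b₀ + ρ ≤ b) (hb0 : -b₀ + ρ ≤ π)
    (hf : Continuous (fun x : ℝ => f (x + η * Complex.I)))
    (h1 : ∀ y : ℝ, 0 ≤ y → y ≤ h → ‖f (-π + y * Complex.I)‖ ≤ B1)
    (h2 : ∀ x : ℝ, b ≤ x → x ≤ π → ‖f (-x + h * Complex.I)‖ ≤ B2)
    (h3 : ∀ y : ℝ, h ≤ y → y ≤ η → ‖f (-b + y * Complex.I)‖ ≤ B3)
    (h4 : ∀ x : ℝ, -π ≤ x → x ≤ b → ρ ≤ |x - b₀| → ‖f (-x + η * Complex.I)‖ ≤ B4)
    (h5 : ∀ y : ℝ, 0 ≤ y → y ≤ η → ‖f (π + y * Complex.I)‖ ≤ B5) :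
    ‖path f h η b - ∫ x in (-ρ)..ρ, f (-b₀ + x + η * Complex.I)‖ ≤
      B1 * h + B2 * (π - b) + B3 * (η - h) + B4 * (π + b - 2 * ρ) + B5 * η := by
  have k1 := int_le (f := fun y : ℝ => f (-π + y * Complex.I)) hh h1
  have k2 := int_le (f := fun x : ℝ => f (x + h * Complex.I)) (a := -π) (b := -b) (by linarith)
    (fun x hx hx' => by
      have := h2 (-x) (by linarith) (by linarith)
      simpa using this)
  have k3 := int_le (f := fun y : ℝ => f (-b + y * Complex.I)) hη h3
  have k4 := int_le (f := fun x : ℝ => f (x + η * Complex.I)) (a := -b) (b := -b₀ - ρ) (B := B4)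
    (by linarith)
    (fun x hx hx' => by
      have := h4 (-x) (by linarith) (by linarith) (by
        rw [le_abs]
        left
        linarith)
      simpa using this)
  have k4' := int_le (f := fun x : ℝ => f (x + η * Complex.I)) (a := -b₀ + ρ) (b := π) (B := B4)
    hb0
    (fun x hx hx' => by
      have := h4 (-x) (by linarith) (by linarith) (by
        rw [le_abs]
        right
        linarith)
      simpa using this)
  have k5 := int_le (f := fun y : ℝ => f (π + y * Complex.I)) (le_trans hh hη) h5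
  have hii : ∀ u v : ℝ, IntervalIntegrable (fun x : ℝ => f (x + η * Complex.I))
      MeasureTheory.volume u v := fun u v => hf.intervalIntegrable u v
  have hsh : ∫ x in (-ρ)..ρ, f (-b₀ + x + η * Complex.I) =
      ∫ x in (-b₀ - ρ)..(-b₀ + ρ), f (x + η * Complex.I) := by
    have := intervalIntegral.integral_comp_add_left (a := -ρ) (b := ρ)
      (fun x : ℝ => f (x + η * Complex.I)) (-b₀)
    rw [← sub_eq_add_neg] at this
    rw [← this]
    congr 1
    funext x
    push_cast
    rfl
  have hsp : ∫ x in (-b)..π, f (x + η * Complex.I) =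
      (∫ x in (-b)..(-b₀ - ρ), f (x + η * Complex.I)) +
      (∫ x in (-b₀ - ρ)..(-b₀ + ρ), f (x + η * Complex.I)) +
      ∫ x in (-b₀ + ρ)..π, f (x + η * Complex.I) := by
    rw [intervalIntegral.integral_add_adjacent_intervals (hii _ _) (hii _ _),
      intervalIntegral.integral_add_adjacent_intervals (hii _ _) (hii _ _)]
  have hid : path f h η b - ∫ x in (-ρ)..ρ, f (-b₀ + x + η * Complex.I) =
      Complex.I * (∫ y in (0:ℝ)..h, f (-π + y * Complex.I)) +
      (∫ x in (-π)..(-b), f (x + h * Complex.I)) +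
      Complex.I * (∫ y in h..η, f (-b + y * Complex.I)) +
      (∫ x in (-b)..(-b₀ - ρ), f (x + η * Complex.I)) +
      (∫ x in (-b₀ + ρ)..π, f (x + η * Complex.I)) -
      Complex.I * (∫ y in (0:ℝ)..η, f (π + y * Complex.I)) := by
    unfold path
    rw [hsh, hsp]
    ring
  rw [hid]
  have n1 := norm_sub_le (Complex.I * (∫ y in (0:ℝ)..h, f (-π + y * Complex.I)) +
      (∫ x in (-π)..(-b), f (x + h * Complex.I)) +
      Complex.I * (∫ y in h..η, f (-b + y * Complex.I)) +
      (∫ x in (-b)..(-b₀ - ρ), f (x + η * Complex.I)) +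
      (∫ x in (-b₀ + ρ)..π, f (x + η * Complex.I)))
    (Complex.I * (∫ y in (0:ℝ)..η, f (π + y * Complex.I)))
  have n2 := norm_add_le (Complex.I * (∫ y in (0:ℝ)..h, f (-π + y * Complex.I)) +
      (∫ x in (-π)..(-b), f (x + h * Complex.I)) +
      Complex.I * (∫ y in h..η, f (-b + y * Complex.I)) +
      (∫ x in (-b)..(-b₀ - ρ), f (x + η * Complex.I)))
      (∫ x in (-b₀ + ρ)..π, f (x + η * Complex.I))
  have n3 := norm_add_le (Complex.I * (∫ y in (0:ℝ)..h, f (-π + y * Complex.I)) +
      (∫ x in (-π)..(-b), f (x + h * Complex.I)) +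
      Complex.I * (∫ y in h..η, f (-b + y * Complex.I)))
      (∫ x in (-b)..(-b₀ - ρ), f (x + η * Complex.I))
  have n4 := norm_add_le (Complex.I * (∫ y in (0:ℝ)..h, f (-π + y * Complex.I)) +
      (∫ x in (-π)..(-b), f (x + h * Complex.I)))
      (Complex.I * (∫ y in h..η, f (-b + y * Complex.I)))
  have n5 := norm_add_le (Complex.I * (∫ y in (0:ℝ)..h, f (-π + y * Complex.I)))
      (∫ x in (-π)..(-b), f (x + h * Complex.I))
  simp only [norm_mul, Complex.norm_I, one_mul] at n1 n2 n3 n4 n5
  have e : B4 * (π + b - 2 * ρ) = B4 * (-b₀ - ρ - -b) + B4 * (π - (-b₀ + ρ)) := by ring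
  rw [e]
  linarith

lemma absorb (K : ℝ) {ε : ℝ} (hε : 0 < ε) :
    ∀ᶠ N : ℕ in atTop, N * K ≤ Real.exp (ε * N) := by
  have h1 : Tendsto (fun N : ℕ => (ε * (N : ℝ)) ^ 1 * Real.exp (-(ε * N))) atTop (𝓝 0) :=
    (Real.tendsto_pow_mul_exp_neg_atTop_nhds_zero 1).comp
      (Tendsto.const_mul_atTop hε tendsto_natCast_atTop_atTop)
  have h2 := h1.eventually_lt_const (show (0 : ℝ) < ε / (|K| + 1) by positivity)
  filter_upwards [h2] with N h3
  rw [pow_one, lt_div_iff₀ (by positivity)] at h3
  have h4 : (N : ℝ) * (|K| + 1) * Real.exp (-(ε * N)) < 1 := by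
    have : ε * N * Real.exp (-(ε * N)) * (|K| + 1) =
      ε * ((N : ℝ) * (|K| + 1) * Real.exp (-(ε * N))) := by ring
    rw [this] at h3
    exact lt_of_mul_lt_mul_left (by linarith) hε.le
  rw [Real.exp_neg] at h4
  rw [← div_eq_mul_inv, div_lt_one (Real.exp_pos _)] at h4
  have h5 : (N : ℝ) * K ≤ N * (|K| + 1) :=
    mul_le_mul_of_nonneg_left (by linarith [le_abs_self K]) (Nat.cast_nonneg _)
  linarith

theorem glob (hQ : S_MAXQ) : S_GLOB := by
  intro A α₀ b₀ η hA hC
  have hp := Real.pi_pos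
  have hA' : (4 : ℝ) ≤ A := by exact_mod_cast hA
  set m : ℝ := (A : ℝ) / 2 with hm
  have hm2 : 2 ≤ m := by rw [hm]; linarith
  have hm0 : 0 < m := by linarith
  have hAm : (A : ℝ) = 2 * m := by rw [hm]; ring
  set V := pot m α₀ b₀ η with hVd
  set Λ := GapVol.lob (π / 6) with hΛ
  have hΛ0 : 0 < Λ := lob6_pos
  have hV10 : 10 * Λ ≤ V := vol_ge Pool.Agent.W402.VC.max Pool.Agent.W305.VC.ten hm2 hC
  obtain ⟨c, hc, hq⟩ := hQ m α₀ b₀ η hm2 hC
  have hη := hC.hη
  have hα0 := hC.hα
  have hb0 := hC.hb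
  have hpm : 0 < π / m := by positivity
  have hpm2 : π / m ≤ π / 2 := div_le_div_of_nonneg_left hp.le (by norm_num) hm2
  have hbm : 0 < π / m - b₀ := by
    have : b₀ < π / m := by
      rw [lt_div_iff₀ hm0]
      linarith [hC.hbm]
    linarith
  have hαb : 0 < π - α₀ - b₀ := by linarith [hC.hαb]
  refine ⟨min (π / m - b₀) ((π - α₀ - b₀) / 2), lt_min hbm (by linarith), ?_⟩
  intro ρ hρ hρ0
  have hρ1 : ρ ≤ π / m - b₀ := hρ0.trans (min_le_left _ _)
  have hρ2 : ρ ≤ (π - α₀ - b₀) / 2 := hρ0.trans (min_le_right _ _)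
  set δa : ℝ := min (min (c * (π / m - b₀) ^ 2) (c * ((π - α₀ - b₀) ^ 2 / 2))) Λ with hδa
  have hδa0 : 0 < δa := lt_min (lt_min (by positivity) (by positivity)) hΛ0
  have hd1 : δa ≤ c * (π / m - b₀) ^ 2 := (min_le_left _ _).trans (min_le_left _ _)
  have hd2 : δa ≤ c * ((π - α₀ - b₀) ^ 2 / 2) := (min_le_left _ _).trans (min_le_right _ _)
  have hd3 : δa ≤ Λ := min_le_right _ _
  set δ : ℝ := min (δa / 2) (min (c * ρ ^ 2) (c * b₀ ^ 2)) with hδ
  have hδ0 : 0 < δ := lt_min (by positivity) (lt_min (by positivity) (by positivity))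
  have hδ1 : δ ≤ δa / 2 := min_le_left _ _
  have hδ2 : δ ≤ c * ρ ^ 2 := (min_le_right _ _).trans (min_le_left _ _)
  have hδ3 : δ ≤ c * b₀ ^ 2 := (min_le_right _ _).trans (min_le_right _ _)
  set h : ℝ := min η (min (Λ / (2 * π)) (δa / (8 * π * m))) with hhd
  have hh : 0 < h := lt_min hη (lt_min (by positivity) (by positivity))
  have hhη : h ≤ η := min_le_left _ _
  have hh1 : 2 * π * h ≤ Λ := by
    have h1 : h ≤ Λ / (2 * π) := le_trans (min_le_right _ _) (min_le_left _ _)
    rw [le_div_iff₀ (by positivity)] at h1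
    linarith
  have hh2 : 8 * π * m * h ≤ δa := by
    have h1 : h ≤ δa / (8 * π * m) := le_trans (min_le_right _ _) (min_le_right _ _)
    rw [le_div_iff₀ (by positivity)] at h1
    linarith
  set ε : ℝ := δ / (24 * π) with hε
  have hε0 : 0 < ε := by positivity
  -- off-critical estimates
  have wa : ∀ α y : ℝ, 0 ≤ α → α ≤ π → h ≤ y → y ≤ η →
      pot m α (min (π / m) (π - α)) y ≤ V - δ := by
    intro α y a1 a2 a3 a4
    have := offA hm2 hC hq hc hh hh1 hd1 hd2 hd3 a1 a2 a3 a4
    linarith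
  have wb : ∀ α b : ℝ, 0 ≤ α → α ≤ π → min (π / m) (π - α) ≤ b → b ≤ π →
      pot m α b h ≤ V - δ := by
    intro α b a1 a2 a3 a4
    have k1 := Pool.Agent.W305.VC.real m α b (min (π / m) (π - α)) h hm0.le hh a1 a2
      (le_min hpm.le (by linarith)) a3 a4
    have k2 := offA hm2 hC hq hc hh hh1 hd1 hd2 hd3 a1 a2 le_rfl hhη
    linarith
  have wc : ∀ α b : ℝ, 0 ≤ α → α ≤ π → -π ≤ b → b ≤ min (π / m) (π - α) →
      (ρ < |α - α₀| ∨ ρ ≤ |b - b₀|) → pot m α b η ≤ V - δ := by
    intro α b a1 a2 a3 a4 a5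
    have q1 := min_le_left (π / m) (π - α)
    have q2 := min_le_right (π / m) (π - α)
    rcases le_total 0 b with hb | hb
    · have k1 := hq α b a1 hb (by linarith) (by linarith)
      have k2 : ρ ^ 2 ≤ (α - α₀) ^ 2 + (b - b₀) ^ 2 := by
        rcases a5 with a5 | a5
        · have : ρ ^ 2 ≤ (α - α₀) ^ 2 := by
            rw [← sq_abs (α - α₀)]
            exact pow_le_pow_left₀ hρ.le a5.le 2
          linarith [sq_nonneg (b - b₀)]
        · have : ρ ^ 2 ≤ (b - b₀) ^ 2 := by
            rw [← sq_abs (b - b₀)]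
            exact pow_le_pow_left₀ hρ.le a5 2
          linarith [sq_nonneg (α - α₀)]
      have k3 := mul_le_mul_of_nonneg_left k2 hc.le
      linarith
    · have k1 := Pool.Agent.W305.VC.neg m α b η hm0.le hη a1 a2 a3 hb
      have k2 := hq α 0 a1 le_rfl (by linarith) (by linarith)
      have k3 : 0 ≤ c * (α - α₀) ^ 2 := by positivity
      have k4 : c * ((α - α₀) ^ 2 + (0 - b₀) ^ 2) = c * (α - α₀) ^ 2 + c * b₀ ^ 2 := by ring
      linarith
  set K1 : ℝ := Real.sinh h * h + 1 * (2 * π) + 1 * η + 1 * (2 * π) + Real.sinh η * η with hK1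
  have hsh : 0 ≤ Real.sinh h := Real.sinh_nonneg_iff.2 hh.le
  have hsη : 0 ≤ Real.sinh η := Real.sinh_nonneg_iff.2 hη.le
  have hK10 : 0 < K1 := by
    have : 0 ≤ Real.sinh h * h := by positivity
    have : 0 ≤ Real.sinh η * η := by positivity
    rw [hK1]
    positivity
  set K2 : ℝ := K1 / (2 * π) with hK2
  have hK20 : 0 < K2 := by positivity
  set K : ℝ := K2 * (2 + K2) + 1 with hK
  have hK0 : 0 < K := by positivity
  refine ⟨δ / (8 * π), by positivity, ?_⟩
  have e1 := pb_le Pool.Agent.W440.VC.rs Pool.Agent.W540.VC.brf_asymp A (h := h) (H := η) hh hε0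
  have e2 := Pool.Agent.W540.VC.vert A ε hε0
  have e3 := Pool.Agent.W12.VCSmall.small A ε hε0
  have e4 := s_up hA hC hε0
  filter_upwards [e1, e2, e3, e4, absorb K hε0, eventually_ge_atTop 2] with N h1 h2 h3 h4 h5 hN2
  have hN0 : 0 < N := by omega
  have hNp : (0 : ℝ) < N := by exact_mod_cast hN0
  have hpN : 0 < N / (4 * π) := by positivity
  set E := Real.exp (N / (4 * π) * (V - δ) + ε * N) with hE
  have hE0 : 0 < E := Real.exp_pos _
  set G := Real.exp (N / (4 * π) * V + ε * N) with hG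
  have hG0 : 0 < G := Real.exp_pos _
  have hEG : E ≤ G := by
    apply Real.exp_le_exp.2
    have : N / (4 * π) * (V - δ) ≤ N / (4 * π) * V :=
      mul_le_mul_of_nonneg_left (by linarith) hpN.le
    linarith
  have hVδ : 0 ≤ V - δ := by linarith
  have hVN : 0 ≤ N / (4 * π) * (V - δ) := by positivity
  set T := Real.exp (N / (2 * π) * V - δ / (8 * π) * N - ε * N) with hT
  have hEGT : E * G = T := by
    rw [hE, hG, hT, ← Real.exp_add]
    congr 1
    rw [hε]
    field_simp
    ring
  have hT0 : 0 < T := Real.exp_pos _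
  -- bound of one term
  have term : ∀ d ∈ range N, |Cn A N (N - 1 - d) ^ 2 -
      (if |2 * π * d / N - α₀| ≤ ρ then kk N d ^ 2 / (4 * π ^ 2) *
        ‖∫ x in (-ρ)..ρ, Fint A N d (-b₀ + x + η * Complex.I)‖ ^ 2 else 0)| ≤ K * T := by
    intro d hd
    rw [Finset.mem_range] at hd
    set n := N - 1 - d with hn
    have hnd : n + d + 1 = N := by omega
    set α : ℝ := 2 * π * d / N with hα
    have hα00 : 0 ≤ α := by positivity
    have hCn0 : 0 ≤ Cn A N n := by unfold Cn; positivity
    rcases Nat.lt_or_ge (2 * n + 1) N with hs | hs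
    · -- small n
      have hαπ : π ≤ α := by
        rw [hα, le_div_iff₀ hNp]
        have hNd : (N : ℝ) ≤ 2 * (d : ℝ) := by
          have : N ≤ 2 * d := by omega
          exact_mod_cast this
        have := mul_le_mul_of_nonneg_left hNd hp.le
        linarith
      have hnot : ¬ |α - α₀| ≤ ρ := by
        rw [not_le, lt_abs]
        left
        linarith
      rw [if_neg hnot, sub_zero, abs_of_nonneg (sq_nonneg _)]
      have k1 : Cn A N n ≤ Real.exp (ε * N) := by
        unfold Cn
        rw [Gm_eq s_gam hN2 hs]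
        exact h3 n hs
      have k2 : Real.exp (ε * N) ≤ E := by
        apply Real.exp_le_exp.2
        linarith
      calc Cn A N n ^ 2 = Cn A N n * Cn A N n := sq _
        _ ≤ E * G := mul_le_mul (k1.trans k2) ((k1.trans k2).trans hEG) hCn0 hE0.le
        _ = T := hEGT
        _ ≤ K * T := by
          have h1K : 1 ≤ K := by
            rw [hK]
            have : 0 ≤ K2 * (2 + K2) := by positivity
            linarith
          exact le_mul_of_one_le_left hT0.le h1K
    · have hαπ : α ≤ π := by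
        rw [hα, div_le_iff₀ hNp]
        have hNd : 2 * (d : ℝ) ≤ N := by
          have : 2 * d ≤ N := by omega
          exact_mod_cast this
        have := mul_le_mul_of_nonneg_left hNd hp.le
        linarith
      set b := min (π / m) (π - α) with hb
      have hbb0 : 0 ≤ b := le_min hpm.le (by linarith)
      have hbπ : b ≤ π := le_trans (min_le_right _ _) (by linarith)
      have hCp := Cn_path s_gam Pool.Agent.W634.VC.path A hN2 hnd hh hhη (b := b)
        (by rw [abs_of_nonneg hbb0]; exact hbπ)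
      have hnorm : ∀ z : ℂ, ‖((‖brf (v0 N) n‖ ^ 2 : ℝ) : ℂ) * Fint A N d z‖ =
          ‖brf (v0 N) n‖ ^ 2 * ‖Fint A N d z‖ := by
        intro z
        rw [norm_mul, Complex.norm_real, Real.norm_eq_abs, abs_of_nonneg (by positivity)]
      set f : ℂ → ℂ := fun z => ((‖brf (v0 N) n‖ ^ 2 : ℝ) : ℂ) * Fint A N d z with hf
      have g1 : ∀ y : ℝ, 0 ≤ y → y ≤ h → ‖f (-π + y * Complex.I)‖ ≤ Real.sinh h * E := by
        intro y hy hy'
        rw [hf, hnorm]
        refine le_trans (h2 n d hnd y hy).2 ?_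
        have hs1 : Real.sinh y ≤ Real.sinh h := Real.sinh_le_sinh.2 hy'
        apply mul_le_mul hs1 _ (Real.exp_pos _).le hsh
        apply Real.exp_le_exp.2
        have hmy : m * y ≤ m * h := mul_le_mul_of_nonneg_left hy' hm0.le
        have h7 : (A : ℝ) * N * y / 2 ≤ N / (4 * π) * (V - δ) := by
          have e : (A : ℝ) * N * y / 2 = N / (4 * π) * (4 * π * (m * y)) := by
            rw [hAm]
            field_simp
          rw [e]
          apply mul_le_mul_of_nonneg_left _ hpN.le
          have e' : 4 * π * (m * h) = 8 * π * m * h / 2 := by ring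
          have e'' : 4 * π * (m * y) ≤ 4 * π * (m * h) :=
            mul_le_mul_of_nonneg_left hmy (by positivity)
          linarith
        linarith
      have g2 : ∀ x : ℝ, b ≤ x → x ≤ π → ‖f (-x + h * Complex.I)‖ ≤ E := by
        intro x hx hx'
        rw [hf, hnorm]
        refine le_trans (h1 n d hnd x h le_rfl hhη) ?_
        apply Real.exp_le_exp.2
        have := mul_le_mul_of_nonneg_left (wb α x hα00 hαπ hx hx') hpN.le
        linarith
      have g3 : ∀ y : ℝ, h ≤ y → y ≤ η → ‖f (-b + y * Complex.I)‖ ≤ E := by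
        intro y hy hy'
        rw [hf, hnorm]
        refine le_trans (h1 n d hnd b y hy hy') ?_
        apply Real.exp_le_exp.2
        have := mul_le_mul_of_nonneg_left (wa α y hα00 hαπ hy hy') hpN.le
        linarith
      have g4 : ∀ x : ℝ, -π ≤ x → x ≤ b → (ρ < |α - α₀| ∨ ρ ≤ |x - b₀|) →
          ‖f (-x + η * Complex.I)‖ ≤ E := by
        intro x hx hx' hx''
        rw [hf, hnorm]
        refine le_trans (h1 n d hnd x η hhη le_rfl) ?_
        apply Real.exp_le_exp.2
        have := mul_le_mul_of_nonneg_left (wc α x hα00 hαπ hx hx' hx'') hpN.le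
        linarith
      have g5 : ∀ y : ℝ, 0 ≤ y → y ≤ η → ‖f (π + y * Complex.I)‖ ≤ Real.sinh η * E := by
        intro y hy hy'
        rw [hf, hnorm]
        refine le_trans (h2 n d hnd y hy).1 ?_
        have hs1 : Real.sinh y ≤ Real.sinh η := Real.sinh_le_sinh.2 hy'
        apply mul_le_mul hs1 _ (Real.exp_pos _).le hsη
        apply Real.exp_le_exp.2
        linarith
      rcases lt_or_ge ρ |α - α₀| with hρα | hρα
      · rw [if_neg (not_le.2 hρα), sub_zero, abs_of_nonneg (sq_nonneg _)]
        have key := path_le (f := f) hh.le hhη (b := b) (by linarith) hbπ g1 g2 g3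
          (fun x hx hx' => g4 x hx hx' (Or.inl hρα)) g5
        have k1 : Cn A N n ≤ K2 * E := by
          rw [hCp, hK2, div_mul_eq_mul_div]
          apply div_le_div_of_nonneg_right _ (by positivity)
          refine le_trans key ?_
          have t1 : E * (π - b) ≤ E * (2 * π) := mul_le_mul_of_nonneg_left (by linarith) hE0.le
          have t2 : E * (η - h) ≤ E * η := mul_le_mul_of_nonneg_left (by linarith) hE0.le
          have t3 : E * (π + b) ≤ E * (2 * π) := mul_le_mul_of_nonneg_left (by linarith) hE0.le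
          have t4 : K1 * E = Real.sinh h * E * h + E * (2 * π) + E * η + E * (2 * π) +
            Real.sinh η * E * η := by rw [hK1]; ring
          rw [t4]
          linarith
        calc Cn A N n ^ 2 ≤ (K2 * E) ^ 2 := pow_le_pow_left₀ hCn0 k1 2
          _ = K2 * K2 * (E * E) := by ring
          _ ≤ K2 * K2 * (E * G) := by
            apply mul_le_mul_of_nonneg_left _ (by positivity)
            exact mul_le_mul_of_nonneg_left hEG hE0.le
          _ = K2 * K2 * T := by rw [hEGT]
          _ ≤ K * T := by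
            apply mul_le_mul_of_nonneg_right _ hT0.le
            rw [hK, mul_add]
            have := mul_pos hK20 (by norm_num : (0 : ℝ) < 2)
            linarith
      · rw [if_pos hρα]
        have hbρ : b₀ + ρ ≤ b := by
          apply le_min (by linarith)
          have := (abs_le.1 hρα).2
          linarith
        have hfc : Continuous (fun x : ℝ => f (x + η * Complex.I)) :=
          continuous_const.mul (Fint_contAt A hN0 hη)
        have key := path_short (f := f) hh.le hhη (b := b) (b₀ := b₀) (ρ := ρ) hbπ hρ.le hbρ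
          (by linarith) hfc g1 g2 g3 (fun x hx hx' hx'' => g4 x hx hx' (Or.inr hx'')) g5
        set P := path f h η b with hP
        set I₀ := ∫ x in (-ρ)..ρ, f (-b₀ + x + η * Complex.I) with hI₀
        have hI : kk N d ^ 2 / (4 * π ^ 2) *
            ‖∫ x in (-ρ)..ρ, Fint A N d (-b₀ + x + η * Complex.I)‖ ^ 2 =
            (‖I₀‖ / (2 * π)) ^ 2 := by
          have : I₀ = ((‖brf (v0 N) n‖ ^ 2 : ℝ) : ℂ) *
              ∫ x in (-ρ)..ρ, Fint A N d (-b₀ + x + η * Complex.I) := by
            rw [hI₀, hf]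
            exact intervalIntegral.integral_const_mul _ _
          rw [this, norm_mul, Complex.norm_real, Real.norm_eq_abs, abs_of_nonneg (by positivity)]
          unfold kk
          rw [← hn]
          field_simp
          ring
        rw [hI, hCp]
        have k1 : ‖P - I₀‖ ≤ K1 * E := by
          refine le_trans key ?_
          have t1 : E * (π - b) ≤ E * (2 * π) := mul_le_mul_of_nonneg_left (by linarith) hE0.le
          have t2 : E * (η - h) ≤ E * η := mul_le_mul_of_nonneg_left (by linarith) hE0.le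
          have t3 : E * (π + b - 2 * ρ) ≤ E * (2 * π) :=
            mul_le_mul_of_nonneg_left (by linarith) hE0.le
          have t4 : K1 * E = Real.sinh h * E * h + E * (2 * π) + E * η + E * (2 * π) +
            Real.sinh η * E * η := by rw [hK1]; ring
          rw [t4]
          linarith
        have k2 : |‖P‖ / (2 * π) - ‖I₀‖ / (2 * π)| ≤ K2 * E := by
          rw [← sub_div, abs_div, abs_of_pos (by positivity : 0 < 2 * π), hK2,
            div_mul_eq_mul_div]
          apply div_le_div_of_nonneg_right _ (by positivity)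
          exact (abs_norm_sub_norm_le P I₀).trans k1
        have k3 : ‖P‖ / (2 * π) ≤ G := by
          rw [← hCp]
          exact h4 n (by omega)
        have k4 : ‖I₀‖ / (2 * π) ≤ ‖P‖ / (2 * π) + K2 * E := by
          have := (abs_le.1 k2).1
          linarith
        have k5 : K2 * E ≤ K2 * G := mul_le_mul_of_nonneg_left hEG hK20.le
        have k6 : 0 ≤ ‖P‖ / (2 * π) := by positivity
        have k7 : 0 ≤ ‖I₀‖ / (2 * π) := by positivity
        calc |(‖P‖ / (2 * π)) ^ 2 - (‖I₀‖ / (2 * π)) ^ 2|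
            = |‖P‖ / (2 * π) - ‖I₀‖ / (2 * π)| * (‖P‖ / (2 * π) + ‖I₀‖ / (2 * π)) := by
              rw [sq_sub_sq, abs_mul, abs_of_nonneg (add_nonneg k6 k7), mul_comm]
          _ ≤ (K2 * E) * ((2 + K2) * G) := by
              apply mul_le_mul k2 _ (by positivity) (by positivity)
              linarith
          _ = K2 * (2 + K2) * (E * G) := by ring
          _ = K2 * (2 + K2) * T := by rw [hEGT]
          _ ≤ K * T := by
            apply mul_le_mul_of_nonneg_right _ hT0.le
            rw [hK]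
            linarith
  have hkap : kap A N = ∑ d ∈ range N, Cn A N (N - 1 - d) ^ 2 := by
    unfold kap
    exact (Finset.sum_range_reflect (fun n => Cn A N n ^ 2) N).symm
  rw [hkap, Finset.sum_filter, ← Finset.sum_sub_distrib]
  refine (Finset.abs_sum_le_sum_abs _ _).trans ?_
  refine (Finset.sum_le_sum term).trans ?_
  rw [Finset.sum_const, Finset.card_range, nsmul_eq_mul, ← mul_assoc]
  calc N * K * T ≤ Real.exp (ε * N) * T := mul_le_mul_of_nonneg_right h5 hT0.le
    _ = Real.exp (N / (2 * π) * V - δ / (8 * π) * N) := by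
      rw [hT, ← Real.exp_add]
      congr 1
      ring

end Pool.Agent.W505.FE
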