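import Pool.Agent.W402.VC.Max
import Pool.Agent.W707.FE.B

/-! FE project: the maximum of the potential is strict. -/

set_option autoImplicit false

namespace Pool.Agent.W505.FE

open Filter Set GapVol Pool.Agent.W709.VC Pool.Agent.W707.FE
open Pool.Agent.W402.VC (one_lt_cosh den_pos pr_add pr_mul form_nonneg quad_nonneg dpot
  pot_hasDeriv dpot_hasDeriv pot_cont)
open scoped Real Topology

/-- the three coefficients of the quadratic form -/
noncomputable def qc (z : ℝ × ℝ) : ℝ := 2 * (Real.cos (z.1 / 2) / Real.sin (z.1 / 2))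

noncomputable def pc (η : ℝ) (z : ℝ × ℝ) : ℝ :=
  Real.sin (z.2 + z.1) / (Real.cosh η + Real.cos (z.2 + z.1))

noncomputable def rc (η : ℝ) (z : ℝ × ℝ) : ℝ :=
  -(Real.sin (z.2 - z.1) / (Real.cosh η + Real.cos (z.2 - z.1)))

lemma coeff_pos {η α b : ℝ} (hη : 0 < η) (hα : 0 < α) (hb : 0 < b) (hb2 : b < π / 2)
    (hαb : α + b < π) : 0 < pc η (α, b) + rc η (α, b) ∧
    0 < qc (α, b) * (pc η (α, b) + rc η (α, b)) + 4 * (pc η (α, b) * rc η (α, b)) := by
  have hpi := Real.pi_pos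
  have h1 := den_pos hη (b + α)
  have h2 := den_pos hη (b - α)
  have hD : 0 < (Real.cosh η + Real.cos (b + α)) * (Real.cosh η + Real.cos (b - α)) :=
    mul_pos h1 h2
  have hs2 : 0 < Real.sin (α / 2) := Real.sin_pos_of_pos_of_lt_pi (by linarith) (by linarith)
  have hs : 0 < Real.sin α := Real.sin_pos_of_pos_of_lt_pi hα (by linarith)
  have hpr := pr_add (η := η) (α := α) (b := b) hη
  have hpm := pr_mul (η := η) (α := α) (b := b) hη
  have h3 : Real.cos (π - b) < Real.cos α :=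
    Real.cos_lt_cos_of_nonneg_of_le_pi hα.le (by linarith) (by linarith)
  rw [Real.cos_pi_sub] at h3
  have h4 : 0 < Real.cos b := Real.cos_pos_of_mem_Ioo ⟨by linarith, hb2⟩
  have h5 := one_lt_cosh hη
  have hch : Real.cos b < Real.cosh η * Real.cos b := by nlinarith
  have hcc : 0 < Real.cosh η * Real.cos b + Real.cos α := by linarith
  unfold qc pc rc
  simp only
  constructor
  · rw [hpr]
    positivity
  · rw [hpr, hpm]
    have hq : (2 * (Real.cos (α / 2) / Real.sin (α / 2))) * Real.sin α = 2 * (1 + Real.cos α) := by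
      have e1 : Real.sin α = 2 * Real.sin (α / 2) * Real.cos (α / 2) := by
        rw [← Real.sin_two_mul]; congr 1; ring
      have e2 : Real.cos α = 2 * Real.cos (α / 2) ^ 2 - 1 := by
        rw [← Real.cos_two_mul]; congr 1; ring
      rw [e1, e2]
      field_simp
      ring
    have e : 2 * (Real.cos (α / 2) / Real.sin (α / 2)) *
        (2 * Real.sin α * (Real.cosh η * Real.cos b + Real.cos α) /
          ((Real.cosh η + Real.cos (b + α)) * (Real.cosh η + Real.cos (b - α)))) +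
        4 * ((Real.sin α ^ 2 - Real.sin b ^ 2) /
          ((Real.cosh η + Real.cos (b + α)) * (Real.cosh η + Real.cos (b - α)))) =
        (2 * ((2 * (Real.cos (α / 2) / Real.sin (α / 2))) * Real.sin α) *
          (Real.cosh η * Real.cos b + Real.cos α) + 4 * (Real.sin α ^ 2 - Real.sin b ^ 2)) /
          ((Real.cosh η + Real.cos (b + α)) * (Real.cosh η + Real.cos (b - α))) := by
      ring
    rw [e, hq]
    apply div_pos _ hD
    have h6 : Real.cos b ≤ 1 := Real.cos_le_one b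
    have e1 := Real.sin_sq_add_cos_sq b
    have e2 := Real.sin_sq_add_cos_sq α
    have k1 : 0 < (1 + Real.cos α - (1 - Real.cos b)) * (1 + Real.cosh η * Real.cos b) := by
      apply mul_pos (by linarith)
      positivity
    have k2 : 0 ≤ (1 - Real.cos b) * (Real.cosh η * Real.cos b - Real.cos b) :=
      mul_nonneg (by linarith) (by linarith)
    nlinarith

lemma coeff_cont {η α b : ℝ} (hη : 0 < η) (hα : 0 < α) (hα' : α < π) :
    ContinuousAt qc (α, b) ∧ ContinuousAt (pc η) (α, b) ∧ ContinuousAt (rc η) (α, b) := by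
  have hs2 : 0 < Real.sin (α / 2) := Real.sin_pos_of_pos_of_lt_pi (by linarith) (by linarith)
  refine ⟨?_, ?_, ?_⟩
  · have h1 : ContinuousAt (fun z : ℝ × ℝ => Real.cos (z.1 / 2)) (α, b) := by fun_prop
    have h2 : ContinuousAt (fun z : ℝ × ℝ => Real.sin (z.1 / 2)) (α, b) := by fun_prop
    exact continuousAt_const.mul (h1.div h2 hs2.ne')
  · unfold pc
    exact ContinuousAt.div (by fun_prop) (by fun_prop) (den_pos hη _).ne'
  · have h1 : ContinuousAt (fun z : ℝ × ℝ => Real.sin (z.2 - z.1)) (α, b) := by fun_prop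
    have h2 : ContinuousAt (fun z : ℝ × ℝ => Real.cosh η + Real.cos (z.2 - z.1)) (α, b) := by
      fun_prop
    exact (h1.div h2 (den_pos hη _).ne').neg

/-- the quadratic form is uniformly positive definite near the critical point -/
lemma form_near {η α₀ b₀ : ℝ} (hη : 0 < η) (hα : 0 < α₀) (hb : 0 < b₀) (hb2 : b₀ < π / 2)
    (hαb : α₀ + b₀ < π) : ∃ κ ρ : ℝ, 0 < κ ∧ 0 < ρ ∧ ∀ α b : ℝ, |α - α₀| < ρ → |b - b₀| < ρ →
      ∀ x y : ℝ, κ * (x ^ 2 + y ^ 2) ≤
        qc (α, b) * x ^ 2 + pc η (α, b) * (x + y) ^ 2 + rc η (α, b) * (x - y) ^ 2 := by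
  have hpi := Real.pi_pos
  obtain ⟨p1, p2⟩ := coeff_pos hη hα hb hb2 hαb
  obtain ⟨c1, c2, c3⟩ := coeff_cont (b := b₀) hη hα (by linarith)
  set S : ℝ × ℝ → ℝ := fun z => pc η z + rc η z with hS
  set D : ℝ × ℝ → ℝ := fun z => qc z * (pc η z + rc η z) + 4 * (pc η z * rc η z) with hD
  have cS : ContinuousAt S (α₀, b₀) := c2.add c3
  have cD : ContinuousAt D (α₀, b₀) := (c1.mul (c2.add c3)).add (continuousAt_const.mul (c2.mul c3))
  set M : ℝ := |qc (α₀, b₀)| + 2 * S (α₀, b₀) + 1 with hM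
  have hS0 : 0 < S (α₀, b₀) := p1
  have hD0 : 0 < D (α₀, b₀) := p2
  have hM0 : 0 < M := by positivity
  have e1 : ∀ᶠ z in 𝓝 (α₀, b₀), S (α₀, b₀) / 2 < S z := cS.eventually_const_lt (by linarith)
  have e2 : ∀ᶠ z in 𝓝 (α₀, b₀), D (α₀, b₀) / 2 < D z := cD.eventually_const_lt (by linarith)
  have e3 : ∀ᶠ z in 𝓝 (α₀, b₀), qc z + 2 * S z < M := by
    have c4 : ContinuousAt (fun z => qc z + 2 * S z) (α₀, b₀) := c1.add (continuousAt_const.mul cS)
    refine c4.eventually_lt_const ?_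
    have := le_abs_self (qc (α₀, b₀))
    linarith
  have e4 : ∀ᶠ z : ℝ × ℝ in 𝓝 (α₀, b₀), 0 < z.1 :=
    (continuousAt_fst (p := (α₀, b₀))).eventually_const_lt hα
  have e5 : ∀ᶠ z : ℝ × ℝ in 𝓝 (α₀, b₀), z.1 < π :=
    (continuousAt_fst (p := (α₀, b₀))).eventually_lt_const (by show α₀ < π; linarith)
  obtain ⟨ρ, hρ, hball⟩ := Metric.eventually_nhds_iff_ball.1
    (e1.and (e2.and (e3.and (e4.and e5))))
  refine ⟨min (S (α₀, b₀) / 2) (D (α₀, b₀) / (2 * M)), ρ, lt_min (by positivity) (by positivity),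
    hρ, ?_⟩
  intro α b h1 h2 x y
  set κ := min (S (α₀, b₀) / 2) (D (α₀, b₀) / (2 * M)) with hκ
  have hκ0 : 0 < κ := lt_min (by positivity) (by positivity)
  have hκ1 : κ ≤ S (α₀, b₀) / 2 := min_le_left _ _
  have hκ2 : κ * M ≤ D (α₀, b₀) / 2 := by
    have h := min_le_right (S (α₀, b₀) / 2) (D (α₀, b₀) / (2 * M))
    rw [← hκ, le_div_iff₀ (by positivity)] at h
    linarith
  obtain ⟨k1, k2, k3, k4, k5⟩ := hball (α, b) (by
    rw [Metric.mem_ball, Prod.dist_eq, Real.dist_eq, Real.dist_eq]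
    exact max_lt h1 h2)
  have hq0 : 0 ≤ qc (α, b) := by
    unfold qc
    have s1 : 0 < Real.sin (α / 2) := Real.sin_pos_of_pos_of_lt_pi (by
      have : 0 < α := k4
      linarith) (by
      have : α < π := k5
      linarith)
    have s2 : 0 ≤ Real.cos (α / 2) := Real.cos_nonneg_of_mem_Icc ⟨by
      have : 0 < α := k4
      linarith, by
      have : α < π := k5
      linarith⟩
    simp only
    positivity
  have hform := form_nonneg (q := qc (α, b)) (p := pc η (α, b) - κ / 2) (r := rc η (α, b) - κ / 2)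
    x y hq0 (by
      have : S (α, b) = pc η (α, b) + rc η (α, b) := rfl
      linarith) (by
      have t1 : S (α, b) = pc η (α, b) + rc η (α, b) := rfl
      have t2 : D (α, b) = qc (α, b) * (pc η (α, b) + rc η (α, b)) +
        4 * (pc η (α, b) * rc η (α, b)) := rfl
      have t3 : κ * (qc (α, b) + 2 * S (α, b)) ≤ κ * M := mul_le_mul_of_nonneg_left k3.le hκ0.le
      have t4 := sq_nonneg κ
      rw [t1] at t3
      nlinarith)
  nlinarith

theorem maxq : S_MAXQ := by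
  intro m α₀ b₀ η hm hc
  have hpi := Real.pi_pos
  have hη := hc.hη
  have hα₀ := hc.hα
  have hb₀ := hc.hb
  have hb₀2 : b₀ < π / 2 := by nlinarith [hc.hbm]
  have hab₀ := hc.hαb
  obtain ⟨κ, ρ, hκ, hρ, hform⟩ := form_near hη hα₀ hb₀ hb₀2 hab₀
  set t₁ : ℝ := min (1 / 2) (ρ / (2 * π)) with ht₁
  have ht0 : 0 < t₁ := lt_min (by norm_num) (by positivity)
  have ht1 : t₁ ≤ 1 / 2 := min_le_left _ _
  have htρ : t₁ * π < ρ := by
    have h := min_le_right (1 / 2) (ρ / (2 * π))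
    rw [← ht₁, le_div_iff₀ (by positivity)] at h
    linarith
  refine ⟨κ * t₁ ^ 2 / 2, by positivity, ?_⟩
  intro α b hα hb hb2 hαb
  set x := α - α₀ with hx
  set y := b - b₀ with hy
  have e0 : ∀ t ∈ Icc (0:ℝ) 1, 0 ≤ α₀ + t * x := by
    intro t ht
    rw [hx]
    nlinarith [ht.1, ht.2, mul_nonneg ht.1 hα, mul_nonneg (sub_nonneg.mpr ht.2) hα₀.le]
  have e1 : ∀ t ∈ Ico (0:ℝ) 1, 0 < α₀ + t * x := by
    intro t ht
    rw [hx]
    nlinarith [ht.1, ht.2, mul_nonneg ht.1 hα, mul_pos (sub_pos.mpr ht.2) hα₀]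
  have e2 : ∀ t ∈ Icc (0:ℝ) 1, 0 ≤ b₀ + t * y := by
    intro t ht
    rw [hy]
    nlinarith [ht.1, ht.2, mul_nonneg ht.1 hb, mul_nonneg (sub_nonneg.mpr ht.2) hb₀.le]
  have e3 : ∀ t ∈ Icc (0:ℝ) 1, b₀ + t * y ≤ π / 2 := by
    intro t ht
    rw [hy]
    nlinarith [ht.1, ht.2, mul_nonneg ht.1 (sub_nonneg.mpr hb2),
      mul_nonneg (sub_nonneg.mpr ht.2) (sub_nonneg.mpr hb₀2.le)]
  have e4 : ∀ t ∈ Icc (0:ℝ) 1, (α₀ + t * x) + (b₀ + t * y) ≤ π := by
    intro t ht
    rw [hx, hy]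
    nlinarith [ht.1, ht.2, mul_nonneg ht.1 (sub_nonneg.mpr hαb),
      mul_nonneg (sub_nonneg.mpr ht.2) (sub_nonneg.mpr hab₀.le)]
  have e5 : ∀ t ∈ Icc (0:ℝ) 1, α₀ + t * x < 2 * π := by
    intro t ht
    linarith [e4 t ht, e2 t ht]
  have hanti : AntitoneOn (fun t => dpot m η (α₀ + t * x) (b₀ + t * y) x y) (Ico 0 1) := by
    apply antitoneOn_of_deriv_nonpos (convex_Ico 0 1)
    · intro t ht
      exact (dpot_hasDeriv hη (e1 t ht) (e5 t ⟨ht.1, ht.2.le⟩)).continuousAt.continuousWithinAt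
    · intro t ht
      rw [interior_Ico] at ht
      have ht' : t ∈ Ico (0:ℝ) 1 := ⟨ht.1.le, ht.2⟩
      exact (dpot_hasDeriv hη (e1 t ht')
        (e5 t ⟨ht'.1, ht'.2.le⟩)).differentiableAt.differentiableWithinAt
    · intro t ht
      rw [interior_Ico] at ht
      have ht' : t ∈ Ico (0:ℝ) 1 := ⟨ht.1.le, ht.2⟩
      have ht'' : t ∈ Icc (0:ℝ) 1 := ⟨ht.1.le, ht.2.le⟩
      rw [(dpot_hasDeriv hη (e1 t ht') (e5 t ht'')).deriv]
      have := quad_nonneg x y hη (e1 t ht') (e2 t ht'') (e3 t ht'') (e4 t ht'')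
      linarith
  have hzero : dpot m η (α₀ + 0 * x) (b₀ + 0 * y) x y = 0 := by
    have h1 := hc.c1
    have h2 := hc.c2
    simp only [zero_mul, add_zero]
    unfold dpot
    linear_combination x * h2 + y * h1
  have hanti2 : AntitoneOn (fun t => pot m (α₀ + t * x) (b₀ + t * y) η) (Icc 0 1) := by
    apply antitoneOn_of_deriv_nonpos (convex_Icc 0 1)
    · apply Continuous.continuousOn
      exact (pot_cont m hη).comp (by fun_prop : Continuous fun t : ℝ => (α₀ + t * x, b₀ + t * y))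
    · intro t ht
      rw [interior_Icc] at ht
      have ht' : t ∈ Ico (0:ℝ) 1 := ⟨ht.1.le, ht.2⟩
      exact (pot_hasDeriv hη (e1 t ht')
        (e5 t ⟨ht'.1, ht'.2.le⟩)).differentiableAt.differentiableWithinAt
    · intro t ht
      rw [interior_Icc] at ht
      have ht' : t ∈ Ico (0:ℝ) 1 := ⟨ht.1.le, ht.2⟩
      have ht'' : t ∈ Icc (0:ℝ) 1 := ⟨ht.1.le, ht.2.le⟩
      rw [(pot_hasDeriv hη (e1 t ht') (e5 t ht'')).deriv]
      have h := hanti (left_mem_Ico.mpr one_pos) ht' ht.1.le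
      simp only at h
      rw [hzero] at h
      exact h
  -- near the critical point
  have hxπ : |x| ≤ π := by
    rw [abs_le, hx]
    constructor <;> linarith
  have hyπ : |y| ≤ π := by
    rw [abs_le, hy]
    constructor <;> linarith
  have hsub : Icc (0:ℝ) t₁ ⊆ Ico 0 1 := fun t ht => ⟨ht.1, by linarith [ht.2]⟩
  have hsub' : Icc (0:ℝ) t₁ ⊆ Icc 0 1 := fun t ht => ⟨ht.1, by linarith [ht.2]⟩
  set L : ℝ := κ * (x ^ 2 + y ^ 2) with hL
  have hclose : ∀ u : ℝ, |u| ≤ π → ∀ t ∈ Icc (0:ℝ) t₁, |t * u| < ρ := by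
    intro u hu t ht
    rw [abs_mul, abs_of_nonneg ht.1]
    calc t * |u| ≤ t₁ * π := mul_le_mul ht.2 hu (abs_nonneg _) ht0.le
      _ < ρ := htρ
  have hd1 : ∀ t ∈ Icc (0:ℝ) t₁, HasDerivAt (fun t => dpot m η (α₀ + t * x) (b₀ + t * y) x y + L * t)
      (-(qc (α₀ + t * x, b₀ + t * y) * x ^ 2 + pc η (α₀ + t * x, b₀ + t * y) * (x + y) ^ 2 +
        rc η (α₀ + t * x, b₀ + t * y) * (x - y) ^ 2) + L * 1) t := by
    intro t ht
    exact (dpot_hasDeriv hη (e1 t (hsub ht)) (e5 t (hsub' ht))).add ((hasDerivAt_id t).const_mul L)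
  have hanti3 : AntitoneOn (fun t => dpot m η (α₀ + t * x) (b₀ + t * y) x y + L * t) (Icc 0 t₁) := by
    apply antitoneOn_of_deriv_nonpos (convex_Icc 0 t₁)
    · intro t ht
      exact (hd1 t ht).continuousAt.continuousWithinAt
    · intro t ht
      rw [interior_Icc] at ht
      exact (hd1 t ⟨ht.1.le, ht.2.le⟩).differentiableAt.differentiableWithinAt
    · intro t ht
      rw [interior_Icc] at ht
      have ht' : t ∈ Icc (0:ℝ) t₁ := ⟨ht.1.le, ht.2.le⟩
      rw [(hd1 t ht').deriv]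
      have := hform (α₀ + t * x) (b₀ + t * y) (by simpa using hclose x hxπ t ht')
        (by simpa using hclose y hyπ t ht') x y
      linarith
  have hd2 : ∀ t ∈ Icc (0:ℝ) t₁, HasDerivAt
      (fun t => pot m (α₀ + t * x) (b₀ + t * y) η + L * (t ^ 2 / 2))
      (dpot m η (α₀ + t * x) (b₀ + t * y) x y + L * t) t := by
    intro t ht
    have h1 : HasDerivAt (fun t : ℝ => t ^ 2 / 2) t t := by
      have := (hasDerivAt_pow 2 t).div_const 2
      simpa using this
    exact (pot_hasDeriv hη (e1 t (hsub ht)) (e5 t (hsub' ht))).add (h1.const_mul L)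
  have hanti4 : AntitoneOn (fun t => pot m (α₀ + t * x) (b₀ + t * y) η + L * (t ^ 2 / 2))
      (Icc 0 t₁) := by
    apply antitoneOn_of_deriv_nonpos (convex_Icc 0 t₁)
    · intro t ht
      exact (hd2 t ht).continuousAt.continuousWithinAt
    · intro t ht
      rw [interior_Icc] at ht
      exact (hd2 t ⟨ht.1.le, ht.2.le⟩).differentiableAt.differentiableWithinAt
    · intro t ht
      rw [interior_Icc] at ht
      have ht' : t ∈ Icc (0:ℝ) t₁ := ⟨ht.1.le, ht.2.le⟩
      rw [(hd2 t ht').deriv]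
      have h := hanti3 (left_mem_Icc.mpr ht0.le) ht' ht.1.le
      simp only at h
      rw [hzero, mul_zero, add_zero] at h
      exact h
  have h4 := hanti4 (left_mem_Icc.mpr ht0.le) (right_mem_Icc.mpr ht0.le) ht0.le
  simp only [zero_mul, add_zero] at h4
  have h5 := hanti2 (hsub' (right_mem_Icc.mpr ht0.le)) (right_mem_Icc.mpr zero_le_one)
    (by linarith)
  simp only [one_mul] at h5
  have h6 : α₀ + x = α := by rw [hx]; ring
  have h7 : b₀ + y = b := by rw [hy]; ring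
  rw [h6, h7] at h5
  have h8 : L * (t₁ ^ 2 / 2) = κ * t₁ ^ 2 / 2 * (x ^ 2 + y ^ 2) := by rw [hL]; ring
  norm_num at h4
  linarith

end Pool.Agent.W505.FE
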